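import Mathlib

set_option autoImplicit false

namespace Pool.Agent.Results.MP_ed4848_gt.NotMetrizable

open Set Filter Topology

abbrev X : Type := ℕ → Bool

def KK : Set (X → ℝ) := {g | (∀ x, g x ∈ Icc (0 : ℝ) 1) ∧
  ∀ (x y z : X) (n : ℕ), x n ≠ y n → (∀ i < n, z i = x i) → g x * g y * (g z - g x) = 0}

theorem KK_compact : IsCompact KK := by
  have h1 : IsCompact (Set.pi univ fun _ : X => Icc (0 : ℝ) 1) :=
    isCompact_univ_pi fun _ => isCompact_Icc
  refine h1.of_isClosed_subset ?_ fun g hg x _ => hg.1 x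
  simp only [KK, setOf_and, setOf_forall]
  refine IsClosed.inter (isClosed_iInter fun x => isClosed_Icc.preimage (continuous_apply x)) ?_
  refine isClosed_iInter fun x => isClosed_iInter fun y => isClosed_iInter fun z =>
    isClosed_iInter fun n => isClosed_iInter fun _ => isClosed_iInter fun _ => ?_
  exact isClosed_eq (by fun_prop) continuous_const

def cyl (d : ℕ × Finset ℕ) (z : X) : Prop := ∀ i < d.1, (z i = true ↔ i ∈ d.2)

open Classical in
noncomputable def chi (d : ℕ × Finset ℕ) : X → ℝ := fun z => if cyl d z then 1 else 0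

def dd (x : X) (n : ℕ) : ℕ × Finset ℕ := (n, (Finset.range n).filter fun i => x i = true)

theorem cyl_dd (x z : X) (n : ℕ) : cyl (dd x n) z ↔ ∀ i < n, z i = x i := by
  simp only [cyl, dd, Finset.mem_filter, Finset.mem_range]
  refine forall₂_congr fun i hi => ?_
  cases z i <;> cases x i <;> simp [hi]

theorem shape {g : X → ℝ} (hg : g ∈ KK) :
    (∃ d, ∃ t : ℝ, t • chi d = g) ∨ ∃ x, g x ≠ 0 ∧ ∀ y, y ≠ x → g y = 0 := by
  classical
  by_cases h : ∃ n, ∃ x y : X, g x ≠ 0 ∧ g y ≠ 0 ∧ x n ≠ y n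
  · obtain ⟨x, y, hx, hy, hn⟩ := Nat.find_spec h
    refine Or.inl ⟨dd x (Nat.find h), g x, funext fun z => ?_⟩
    simp only [Pi.smul_apply, smul_eq_mul, chi]
    split_ifs with hz
    · have := hg.2 x y z _ hn ((cyl_dd _ _ _).1 hz)
      rw [mul_eq_zero, mul_eq_zero] at this
      rcases this with (h1 | h1) | h1
      · exact absurd h1 hx
      · exact absurd h1 hy
      · linarith
    · rw [cyl_dd] at hz
      push Not at hz
      obtain ⟨i, hi, hz⟩ := hz
      by_contra hc
      exact Nat.find_min h hi ⟨z, x, fun e => hc (by rw [e, mul_zero]), hx, hz⟩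
  · by_cases h0 : ∃ x, g x ≠ 0
    · obtain ⟨x, hx⟩ := h0
      refine Or.inr ⟨x, hx, fun y hy => ?_⟩
      by_contra hc
      obtain ⟨n, hn⟩ := Function.ne_iff.1 hy
      exact h ⟨n, y, x, hc, hx, hn⟩
    · push Not at h0
      exact Or.inl ⟨(0, ∅), 0, funext fun z => by simp [h0 z]⟩

theorem sep1 (A : Set (X → ℝ)) (u : X → ℝ) :
    ∃ B ⊆ A, B.Countable ∧ ∀ t : ℝ, t • u ∈ A → t • u ∈ closure B := by
  obtain ⟨T, hTs, hT, hTd⟩ :=
    (TopologicalSpace.IsSeparable.of_separableSpace {t : ℝ | t • u ∈ A}).exists_countable_dense_subset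
  refine ⟨(fun t : ℝ => t • u) '' T, ?_, hT.image _, fun t ht => ?_⟩
  · rintro _ ⟨t, ht, rfl⟩
    exact hTs ht
  · exact image_closure_subset_closure_image (f := fun t : ℝ => t • u) (by fun_prop)
      ⟨t, hTd ht, rfl⟩

def ZZ (A : Set (X → ℝ)) : Set X := {x | ∃ h ∈ A, h x ≠ 0 ∧ ∀ y, y ≠ x → h y = 0}

theorem sep2 (A : Set (X → ℝ)) (hA : A ⊆ KK) (hZ : (ZZ A).Countable) :
    ∃ B ⊆ A, B.Countable ∧ A ⊆ closure B := by
  classical
  choose B hB hc hd using sep1 A
  refine ⟨(⋃ d, B (chi d)) ∪ ⋃ x ∈ ZZ A, B (Pi.single x 1), ?_, ?_, fun g hg => ?_⟩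
  · exact union_subset (iUnion_subset fun d => hB _) (iUnion₂_subset fun x _ => hB _)
  · exact (countable_iUnion fun d => hc _).union (hZ.biUnion fun x _ => hc _)
  · rcases shape (hA hg) with ⟨d, t, rfl⟩ | ⟨x, hx, hy⟩
    · exact closure_mono (subset_union_of_subset_left (subset_iUnion (fun d => B (chi d)) d) _)
        (hd _ t hg)
    · have e : g x • (Pi.single x 1 : X → ℝ) = g := funext fun y => by
        by_cases h : y = x
        · subst h; simp
        · simp [h, hy y h]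
      have := hd (Pi.single x 1) (g x) (by rw [e]; exact hg)
      rw [e] at this
      refine closure_mono (subset_union_of_subset_right ?_ _) this
      exact subset_biUnion_of_mem (u := fun x => B (Pi.single x 1)) (show x ∈ ZZ A from ⟨g, hg, hx, hy⟩)

theorem tight (A : Set (X → ℝ)) (hA : A ⊆ KK) (g : X → ℝ) (hg : g ∈ closure A) :
    ∃ B ⊆ A, B.Countable ∧ g ∈ closure B := by
  by_cases hZ : (ZZ A).Countable
  · obtain ⟨B, h1, h2, h3⟩ := sep2 A hA hZ
    exact ⟨B, h1, h2, closure_minimal h3 isClosed_closure hg⟩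
  by_cases h0 : ∃ x, g x ≠ 0
  · obtain ⟨x, hx⟩ := h0
    have ho : IsOpen {h : X → ℝ | h x ≠ 0} := isOpen_ne_fun (continuous_apply x) continuous_const
    have hg' : g ∈ closure ({h : X → ℝ | h x ≠ 0} ∩ A) := ho.inter_closure ⟨hx, hg⟩
    obtain ⟨B, h1, h2, h3⟩ := sep2 ({h : X → ℝ | h x ≠ 0} ∩ A) (fun h hh => hA hh.2)
      ((countable_singleton x).mono fun y hy => by
        obtain ⟨h, hh, -, h2⟩ := hy
        by_contra hc
        exact hh.1 (h2 x fun e => hc e.symm))
    exact ⟨B, fun h hh => (h1 hh).2, h2, closure_minimal h3 isClosed_closure hg'⟩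
  · push Not at h0
    have hi : (ZZ A).Infinite := fun hf => hZ hf.countable
    let j := hi.natEmbedding
    choose h hh h1 h2 using fun n => (j n).2
    refine ⟨range h, range_subset_iff.2 hh, countable_range _, ?_⟩
    refine mem_closure_of_tendsto (f := h) (b := atTop) ?_ (Eventually.of_forall fun n => ⟨n, rfl⟩)
    refine tendsto_pi_nhds.2 fun y => ?_
    rw [h0 y]
    refine tendsto_const_nhds.congr' ?_
    have hinj : Function.Injective fun n => ((j n : ZZ A) : X) :=
      Subtype.val_injective.comp j.injective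
    have := hinj.tendsto_cofinite (eventually_cofinite_ne y)
    rw [Nat.cofinite_eq_atTop] at this
    filter_upwards [this] with n hn
    exact (h2 n y fun e => hn e.symm).symm

noncomputable def ph (e : ℕ → ℕ × Finset ℕ) (x : ℝ) (z : X) : ℝ :=
  max 0 (1 - 2 * Metric.infDist x ((fun n : ℕ => (n : ℝ)) '' {n | cyl (e n) z}))

theorem nat_eq {x : ℝ} {n m : ℕ} (h1 : |x - n| < 1 / 2) (h2 : |x - m| < 1 / 2) : n = m := by
  rw [abs_lt] at h1 h2
  have a : (n : ℝ) < m + 1 := by linarith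
  have b : (m : ℝ) < n + 1 := by linarith
  have a' : n < m + 1 := by exact_mod_cast a
  have b' : m < n + 1 := by exact_mod_cast b
  omega

theorem ne_S {e : ℕ → ℕ × Finset ℕ} (he : Function.Surjective e) (z : X) :
    ((fun n : ℕ => (n : ℝ)) '' {n | cyl (e n) z}).Nonempty := by
  obtain ⟨n, hn⟩ := he (0, ∅)
  exact ⟨n, n, by simp [hn, cyl], rfl⟩

theorem ph_ne {e : ℕ → ℕ × Finset ℕ} (he : Function.Surjective e) {x : ℝ} {z : X}
    (h : ph e x z ≠ 0) : ∃ n : ℕ, cyl (e n) z ∧ |x - n| < 1 / 2 := by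
  have h1 : Metric.infDist x ((fun n : ℕ => (n : ℝ)) '' {n | cyl (e n) z}) < 1 / 2 := by
    by_contra hc
    exact h (max_eq_left (by linarith [not_lt.1 hc]))
  obtain ⟨_, ⟨n, hn, rfl⟩, h2⟩ := (Metric.infDist_lt_iff (ne_S he z)).1 h1
  exact ⟨n, hn, by rwa [Real.dist_eq] at h2⟩

theorem ph_eq {e : ℕ → ℕ × Finset ℕ} {x : ℝ} {z : X} {n : ℕ}
    (h : cyl (e n) z) (hn : |x - n| < 1 / 2) : ph e x z = 1 - 2 * |x - n| := by
  have h1 : Metric.infDist x ((fun n : ℕ => (n : ℝ)) '' {n | cyl (e n) z}) = |x - n| := by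
    refine le_antisymm ?_ ((Metric.le_infDist ⟨(n : ℝ), mem_image_of_mem (fun n : ℕ => (n : ℝ)) (show n ∈ {n | cyl (e n) z} from h)⟩).2 ?_)
    · rw [← Real.dist_eq]
      exact Metric.infDist_le_dist_of_mem ⟨n, h, rfl⟩
    · rintro _ ⟨m, -, rfl⟩
      rw [Real.dist_eq]
      by_contra hc
      have := nat_eq hn ((not_le.1 hc).trans hn)
      subst this
      exact hc le_rfl
  rw [ph, h1]
  exact max_eq_right (by linarith)

theorem ph_mem {e : ℕ → ℕ × Finset ℕ} (he : Function.Surjective e) (x : ℝ) : ph e x ∈ KK := by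
  refine ⟨fun z => ⟨le_max_left _ _, max_le zero_le_one ?_⟩, fun a b z n hab hz => ?_⟩
  · linarith [Metric.infDist_nonneg (x := x) (s := (fun n : ℕ => (n : ℝ)) '' {n | cyl (e n) z})]
  · by_cases ha : ph e x a = 0
    · simp [ha]
    by_cases hb : ph e x b = 0
    · simp [hb]
    obtain ⟨k, hk, hk'⟩ := ph_ne he ha
    obtain ⟨m, hm, hm'⟩ := ph_ne he hb
    obtain rfl := nat_eq hk' hm'
    have hle : (e k).1 ≤ n := by
      by_contra hc
      have h1 := hk n (not_le.1 hc)
      have h2 := hm n (not_le.1 hc)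
      exact hab (Bool.eq_iff_iff.2 (h1.trans h2.symm))
    have hz' : cyl (e k) z := fun i hi => by rw [hz i (hi.trans_le hle)]; exact hk i hi
    rw [ph_eq hz' hk', ph_eq hk hk', sub_self, mul_zero]

/-- Q2 is false: a compact Hausdorff space of countable tightness and a continuous map from a
power of the real line into it whose image is not metrizable. -/
theorem result : ∃ (ι : Type) (K : Type) (_ : TopologicalSpace K), CompactSpace K ∧ T2Space K ∧
    (∀ (A : Set K) (x : K), x ∈ closure A → ∃ B ⊆ A, B.Countable ∧ x ∈ closure B) ∧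
    ∃ φ : (ι → ℝ) → K, Continuous φ ∧ ¬ TopologicalSpace.MetrizableSpace (Set.range φ) := by
  classical
  obtain ⟨e, he⟩ := exists_surjective_nat (ℕ × Finset ℕ)
  refine ⟨Unit, KK, inferInstance, isCompact_iff_compactSpace.1 KK_compact, inferInstance,
    fun A x hx => ?_, fun v => ⟨ph e (v ()), ph_mem he _⟩, ?_, fun hm => ?_⟩
  · obtain ⟨B, h1, h2, h3⟩ := tight ((↑) '' A) (by rintro _ ⟨a, -, rfl⟩; exact a.2) x
      (closure_subtype.1 hx)
    obtain ⟨C, hC, rfl⟩ := subset_image_iff.1 h1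
    exact ⟨C, hC, countable_of_injective_of_countable_image Subtype.val_injective.injOn h2,
      closure_subtype.2 h3⟩
  · refine Continuous.subtype_mk (continuous_pi fun z => ?_) _
    unfold ph
    exact continuous_const.max (continuous_const.sub (continuous_const.mul
      ((Metric.continuous_infDist_pt _).comp (continuous_apply ()))))
  · set Y := Set.range (fun v : Unit → ℝ => (⟨ph e (v ()), ph_mem he _⟩ : KK)) with hY
    let o : Y := ⟨_, fun _ => -1, rfl⟩
    have ho : ∀ z, o.1.1 z = 0 := fun z => by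
      by_contra hc
      obtain ⟨n, -, hn⟩ := ph_ne he (x := -1) hc
      rw [abs_lt] at hn
      linarith [Nat.cast_nonneg (α := ℝ) n]
    have hF : ∀ V ∈ 𝓝 o, ∃ F : Set X, F.Finite ∧ ∀ y : Y, (∀ z ∈ F, y.1.1 z = 0) → y ∈ V := by
      intro V hV
      obtain ⟨W, hW, hWV⟩ := (mem_nhds_induced _ _ _).1 hV
      obtain ⟨W', hW', hWW⟩ := (mem_nhds_induced _ _ _).1 hW
      rw [nhds_pi, Filter.mem_pi] at hW'
      obtain ⟨I, hI, t, ht, hIt⟩ := hW'
      refine ⟨I, hI, fun y hy => hWV (hWW (hIt fun z hz => ?_))⟩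
      rw [hy z hz, ← ho z]
      exact mem_of_mem_nhds (ht z)
    obtain ⟨V, hV⟩ := (𝓝 o).exists_antitone_basis
    choose F hF1 hF2 using fun n => hF (V n) (hV.mem n)
    have hc : (⋃ n, F n).Countable := countable_iUnion fun n => (hF1 n).countable
    obtain ⟨z0, hz0⟩ : ∃ z0, z0 ∉ ⋃ n, F n := by
      by_contra hh
      push Not at hh
      haveI : Countable X := countable_univ_iff.1 (hc.mono fun z _ => hh z)
      obtain ⟨f, hf⟩ := exists_surjective_nat X
      obtain ⟨n, hn⟩ := hf fun i => !(f i i)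
      have := congrFun hn n
      simp at this
    have hN : {y : Y | y.1.1 z0 < 1} ∈ 𝓝 o := by
      refine IsOpen.mem_nhds (isOpen_lt ((continuous_apply z0).comp
        (continuous_subtype_val.comp continuous_subtype_val)) continuous_const) ?_
      change o.1.1 z0 < 1
      rw [ho]; exact one_pos
    obtain ⟨n, hn⟩ := hV.mem_iff.1 hN
    have hex : ∀ z ∈ F n, ∃ i, z i ≠ z0 i := fun z hz =>
      Function.ne_iff.1 fun h => hz0 (mem_iUnion.2 ⟨n, h ▸ hz⟩)
    choose! r hr using hex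
    obtain ⟨k, hk⟩ := ((hF1 n).image r).bddAbove
    obtain ⟨m, hm'⟩ := he (dd z0 (k + 1))
    have h1 := hn (hF2 n ⟨_, fun _ => (m : ℝ), rfl⟩ fun z hz => by
      by_contra hc'
      obtain ⟨l, hl, hl'⟩ := ph_ne he (x := (m : ℝ)) hc'
      obtain rfl : l = m := nat_eq hl' (by simp)
      rw [hm', cyl_dd] at hl
      exact hr z hz (hl _ (Nat.lt_succ_of_le (hk ⟨z, hz, rfl⟩))))
    have h2 : ph e (m : ℝ) z0 = 1 - 2 * |(m : ℝ) - m| :=
      ph_eq (by rw [hm', cyl_dd]; exact fun _ _ => rfl) (by simp)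
    change ph e (m : ℝ) z0 < 1 at h1
    rw [h2] at h1
    simp at h1

end Pool.Agent.Results.MP_ed4848_gt.NotMetrizable
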